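import Mathlib

/-! Product measures on `ι → κ` with `κ` finite: events depending on finitely many coordinates. -/

set_option autoImplicit false
set_option linter.unusedSectionVars false

namespace Pool.Agent.H500R3.Prod
open MeasureTheory ProbabilityTheory Measure Set

variable {ι κ : Type*} [MeasurableSpace κ] [Finite κ] [MeasurableSingletonClass κ]

/-- `E` depends only on the coordinates in `S` -/
def Dep (S : Set ι) (E : Set (ι → κ)) : Prop :=
  ∀ ω ω' : ι → κ, (∀ i ∈ S, ω i = ω' i) → (ω ∈ E ↔ ω' ∈ E)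

theorem Dep.mono {S T : Set ι} {E : Set (ι → κ)} (h : Dep S E) (hST : S ⊆ T) : Dep T E :=
  fun ω ω' h2 => h ω ω' (fun i hi => h2 i (hST hi))

theorem Dep.compl {S : Set ι} {E : Set (ι → κ)} (h : Dep S E) : Dep S Eᶜ :=
  fun ω ω' h2 => not_congr (h ω ω' h2)

theorem Dep.inter {S : Set ι} {E F : Set (ι → κ)} (h : Dep S E) (h' : Dep S F) : Dep S (E ∩ F) :=
  fun ω ω' h2 => and_congr (h ω ω' h2) (h' ω ω' h2)

theorem Dep.union {S : Set ι} {E F : Set (ι → κ)} (h : Dep S E) (h' : Dep S F) : Dep S (E ∪ F) :=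
  fun ω ω' h2 => or_congr (h ω ω' h2) (h' ω ω' h2)

/-- the trace of `E` on the coordinates in `S` -/
def tr (S : Finset ι) (E : Set (ι → κ)) : Set (S → κ) := {η | ∃ ω ∈ E, ∀ i : S, ω i = η i}

theorem tr_preimage {S : Finset ι} {E : Set (ι → κ)} (h : Dep (S : Set ι) E) :
    (fun (ω : ι → κ) (i : S) => ω i) ⁻¹' tr S E = E := by
  ext ω
  constructor
  · rintro ⟨ω', h1, h2⟩
    refine (h ω ω' ?_).2 h1
    intro i hi
    exact (h2 ⟨i, hi⟩).symm
  · intro h1
    exact ⟨ω, h1, fun i => rfl⟩

theorem measurableSet_tr (S : Finset ι) (E : Set (ι → κ)) : MeasurableSet (tr S E) :=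
  (Set.toFinite _).measurableSet

theorem Dep.measurableSet {S : Finset ι} {E : Set (ι → κ)} (h : Dep (S : Set ι) E) :
    MeasurableSet E := by
  rw [← tr_preimage h]
  exact (measurable_pi_lambda _ (fun i => measurable_pi_apply _)) (measurableSet_tr S E)

/-- the product measure -/
noncomputable def Pm (μ : Measure κ) : Measure (ι → κ) := infinitePi (fun _ : ι => μ)

instance (μ : Measure κ) [IsProbabilityMeasure μ] : IsProbabilityMeasure (Pm (ι := ι) μ) := by
  unfold Pm; infer_instance

theorem Pm_indep (μ : Measure κ) [IsProbabilityMeasure μ] {S T : Finset ι} (hST : Disjoint S T)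
    {E F : Set (ι → κ)} (hE : Dep (S : Set ι) E) (hF : Dep (T : Set ι) F) :
    Pm μ (E ∩ F) = Pm μ E * Pm μ F := by
  classical
  have h1 : iIndepFun (fun (i : ι) (ω : ι → κ) => ω i) (infinitePi (fun _ : ι => μ)) :=
    iIndepFun_infinitePi (X := fun (_ : ι) (x : κ) => x) (fun _ => measurable_id)
  have h2 := h1.indepFun_finset S T hST (fun i => measurable_pi_apply i)
  have h3 := h2.measure_inter_preimage_eq_mul (tr S E) (tr T F) (measurableSet_tr S E)
    (measurableSet_tr T F)
  rw [tr_preimage hE, tr_preimage hF] at h3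
  exact h3

theorem Pm_map (μ : Measure κ) [IsProbabilityMeasure μ] {f : ι → ι} (hf : Function.Injective f)
    {E : Set (ι → κ)} (hE : MeasurableSet E) :
    Pm μ {ω | (fun i => ω (f i)) ∈ E} = Pm μ E := by
  have h := map_infinitePi_infinitePi_of_inj (P := fun _ : ι => μ) hf
  have h2 : (Pm (ι := ι) μ).map (fun ω i => ω (f i)) = Pm μ := h
  conv_rhs => rw [← h2]
  rw [Measure.map_apply _ hE]
  · rfl
  · exact measurable_pi_lambda _ (fun i => measurable_pi_apply _)

/-- probability of an event depending on finitely many coordinates, as a finite sum -/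
theorem Pm_eq_sum (μ : Measure κ) [IsProbabilityMeasure μ] [Fintype κ] {S : Finset ι} {E : Set (ι → κ)}
    (hE : Dep (S : Set ι) E) [DecidablePred (· ∈ tr S E)] [DecidableEq ι] :
    Pm μ E = ∑ η : S → κ, if η ∈ tr S E then ∏ i : S, μ {η i} else 0 := by
  have h1 : Pm μ E = Measure.pi (fun _ : S => μ) (tr S E) := by
    have h2 := infinitePi_map_restrict (μ := fun _ : ι => μ) (I := S)
    rw [← h2, Measure.map_apply (Finset.measurable_restrict S) (measurableSet_tr S E)]
    conv_lhs => rw [← tr_preimage hE]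
    rfl
  rw [h1]
  have h3 : tr S E = ((Finset.univ.filter (fun η => η ∈ tr S E) : Finset (S → κ)) : Set (S → κ)) := by
    ext η; simp
  conv_lhs => rw [h3, ← MeasureTheory.sum_measure_singleton]
  rw [Finset.sum_filter]
  apply Finset.sum_congr rfl
  intro η _
  split_ifs
  · rw [Measure.pi_singleton]
  · rfl

end Pool.Agent.H500R3.Prod
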